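import Pool.Agent.H99.QI

/-! The modified separable transport cost can exceed the modified general one. -/

open Matrix
open scoped Kronecker ComplexOrder

noncomputable section

namespace Pool.Agent.Results.MP_9a8b60_mp.Counter

variable {d N : ℕ}

/-- The transport cost of a bipartite state. -/
def cost (H : Fin N → Matrix (Fin d) (Fin d) ℂ) (ω : Matrix (Fin d × Fin d) (Fin d × Fin d) ℂ) :
    ℝ :=
  1 / 2 * ∑ n, (ω * ((H n)ᵀ ⊗ₖ (1 : Matrix (Fin d) (Fin d) ℂ) -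
    (1 : Matrix (Fin d) (Fin d) ℂ) ⊗ₖ H n) ^ 2).trace.re

/-- Bipartite states with first marginal `ρᵀ` and second marginal `σ`. -/
def Coup (ρ σ : Matrix (Fin d) (Fin d) ℂ) : Set (Matrix (Fin d × Fin d) (Fin d × Fin d) ℂ) :=
  {ω | ω.PosSemidef ∧ ω.trace = 1 ∧ (∀ i j, ∑ k, ω (i, k) (j, k) = ρᵀ i j) ∧
    ∀ i j, ∑ k, ω (k, i) (k, j) = σ i j}

/-- The squared De Palma–Trevisan distance. -/
def W (H : Fin N → Matrix (Fin d) (Fin d) ℂ) (ρ σ : Matrix (Fin d) (Fin d) ℂ) : ℝ :=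
  sInf (cost H '' Coup ρ σ)

/-- The matrix `|ψ⟩⟨ψ|`. -/
def proj (ψ : Fin d → ℂ) : Matrix (Fin d) (Fin d) ℂ := vecMulVec ψ (star ψ)

/-- The separable version. -/
def Wsep (H : Fin N → Matrix (Fin d) (Fin d) ℂ) (ρ σ : Matrix (Fin d) (Fin d) ℂ) : ℝ :=
  sInf {t | ∃ (m : ℕ) (p : Fin m → ℝ) (Ψ Φ : Fin m → Fin d → ℂ), (∀ k, 0 < p k) ∧ ∑ k, p k = 1 ∧
    (∀ k, star (Ψ k) ⬝ᵥ Ψ k = 1) ∧ (∀ k, star (Φ k) ⬝ᵥ Φ k = 1) ∧
    ∑ k, p k • proj (Ψ k) = ρ ∧ ∑ k, p k • proj (Φ k) = σ ∧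
    t = ∑ k, p k * W H (proj (Ψ k)) (proj (Φ k))}

theorem marg1 {ρ σ : Matrix (Fin d) (Fin d) ℂ} {ω} (h : ω ∈ Coup ρ σ)
    (A : Matrix (Fin d) (Fin d) ℂ) :
    (ω * Aᵀ ⊗ₖ (1 : Matrix (Fin d) (Fin d) ℂ)).trace = (ρ * A).trace := by
  rw [← trace_transpose (ρ * A), transpose_mul, trace_mul_comm Aᵀ]
  simp only [trace, diag, mul_apply, Fintype.sum_prod_type, kroneckerMap_apply, one_apply,
    mul_ite, mul_one, mul_zero, Finset.sum_ite_eq', Finset.mem_univ, if_true, ← h.2.2.1,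
    Finset.sum_mul]
  exact Finset.sum_congr rfl fun i _ => Finset.sum_comm

theorem marg2 {ρ σ : Matrix (Fin d) (Fin d) ℂ} {ω} (h : ω ∈ Coup ρ σ)
    (B : Matrix (Fin d) (Fin d) ℂ) :
    (ω * (1 : Matrix (Fin d) (Fin d) ℂ) ⊗ₖ B).trace = (σ * B).trace := by
  simp only [trace, diag, mul_apply, Fintype.sum_prod_type_right, kroneckerMap_apply, one_apply,
    ite_mul, one_mul, zero_mul, mul_ite, mul_zero, Finset.sum_ite_eq', Finset.mem_univ, if_true,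
    ← h.2.2.2, Finset.sum_mul]
  exact Finset.sum_congr rfl fun i _ => Finset.sum_comm

theorem cost_eq (H : Fin N → Matrix (Fin d) (Fin d) ℂ) {ρ σ : Matrix (Fin d) (Fin d) ℂ} {ω}
    (h : ω ∈ Coup ρ σ) : cost H ω = 1 / 2 * ∑ n, ((ρ * (H n * H n)).trace +
      (σ * (H n * H n)).trace - 2 * (ω * (H n)ᵀ ⊗ₖ H n).trace).re := by
  rw [cost]
  congr 1
  refine Finset.sum_congr rfl fun n _ => ?_
  rw [← marg1 h, ← marg2 h, sq]
  simp only [sub_mul, ← mul_kronecker_mul, Matrix.mul_one, Matrix.one_mul, mul_sub, trace_sub, transpose_mul]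
  congr 1
  ring

theorem cost_nonneg {H : Fin N → Matrix (Fin d) (Fin d) ℂ} (hH : ∀ n, (H n).IsHermitian) {ω}
    (h : ω.PosSemidef) : 0 ≤ cost H ω := by
  refine mul_nonneg (by norm_num) (Finset.sum_nonneg fun n _ =>
    Pool.Agent.H99.QI.trace_mul_re_nonneg h ?_)
  have : ((H n)ᵀ ⊗ₖ (1 : Matrix (Fin d) (Fin d) ℂ) -
      (1 : Matrix (Fin d) (Fin d) ℂ) ⊗ₖ H n).IsHermitian := by
    rw [IsHermitian, conjTranspose_sub, conjTranspose_kronecker, conjTranspose_kronecker,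
      (hH n).transpose.eq, (hH n).eq, conjTranspose_one]
  rw [sq]
  nth_rewrite 1 [← this.eq]
  exact posSemidef_conjTranspose_mul_self _

theorem W_nonneg {H : Fin N → Matrix (Fin d) (Fin d) ℂ} (hH : ∀ n, (H n).IsHermitian)
    (ρ σ : Matrix (Fin d) (Fin d) ℂ) : 0 ≤ W H ρ σ :=
  Real.sInf_nonneg (by rintro _ ⟨ω, h, rfl⟩; exact cost_nonneg hH h.1)

theorem proj_mul {ψ : Fin d → ℂ} (A : Matrix (Fin d) (Fin d) ℂ) :
    proj ψ * A * proj ψ = (proj ψ * A).trace • proj ψ := by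
  ext i j
  simp only [proj, trace, diag, mul_apply, vecMulVec_apply, Matrix.smul_apply, smul_eq_mul,
    Finset.sum_mul]
  refine Finset.sum_congr rfl fun k _ => Finset.sum_congr rfl fun l _ => ?_
  ring

theorem trace_proj {ψ : Fin d → ℂ} (h : star ψ ⬝ᵥ ψ = 1) : (proj ψ).trace = 1 := by
  rw [proj, trace_vecMulVec, dotProduct_comm, h]

theorem pure_coup {ψ : Fin d → ℂ} (hψ : star ψ ⬝ᵥ ψ = 1) {σ : Matrix (Fin d) (Fin d) ℂ} {ω}
    (h : ω ∈ Coup (proj ψ) σ) (A B : Matrix (Fin d) (Fin d) ℂ) :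
    (ω * Aᵀ ⊗ₖ B).trace = (proj ψ * A).trace * (σ * B).trace := by
  have hP : (proj ψ).IsHermitian := (posSemidef_vecMulVec_self_star ψ).1
  have hPP : proj ψ * proj ψ = proj ψ := by simpa [trace_proj hψ] using proj_mul (ψ := ψ) 1
  set Q := (proj ψ)ᵀ ⊗ₖ (1 : Matrix (Fin d) (Fin d) ℂ) with hQ
  have hQh : Qᴴ = Q := by rw [hQ, conjTranspose_kronecker, hP.transpose.eq, conjTranspose_one]
  have hQQ : Q * Q = Q := by rw [hQ, ← mul_kronecker_mul, ← transpose_mul, hPP, Matrix.mul_one]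
  obtain ⟨C, hC⟩ := Pool.Agent.H99.QI.exists_sq h.1
  have h1 : C * (1 - Q) = 0 := by
    rw [← trace_conjTranspose_mul_self_eq_zero_iff, conjTranspose_mul, conjTranspose_sub, hQh,
      conjTranspose_one, Matrix.mul_assoc, trace_mul_comm, ← Matrix.mul_assoc, ← hC,
      Matrix.mul_assoc, sub_mul, mul_sub Q, hQQ]
    simp only [Matrix.one_mul, Matrix.mul_one, sub_self, sub_zero, mul_sub, trace_sub]
    rw [hQ, marg1 h, hPP, h.2.1, trace_proj hψ, sub_self]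
  have h2 : ω * Q = ω := by
    rw [mul_sub, Matrix.mul_one, sub_eq_zero] at h1
    rw [hC, Matrix.mul_assoc, ← h1]
  have h3 : Q * ω = ω := by
    have := congrArg conjTranspose h2
    rwa [conjTranspose_mul, hQh, h.1.1.eq] at this
  have h4 : ∀ X, (ω * X).trace = (ω * (Q * X * Q)).trace := fun X => by
    rw [← Matrix.mul_assoc, ← Matrix.mul_assoc, h2, trace_mul_comm _ Q, ← Matrix.mul_assoc, h3]
  have h5 : ∀ A : Matrix (Fin d) (Fin d) ℂ,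
      Q * Aᵀ ⊗ₖ B * Q = (proj ψ * A).trace • (proj ψ)ᵀ ⊗ₖ B := fun A => by
    rw [hQ, ← mul_kronecker_mul, ← mul_kronecker_mul, ← transpose_mul, ← transpose_mul,
      ← Matrix.mul_assoc, proj_mul, transpose_smul, smul_kronecker, Matrix.one_mul, Matrix.mul_one]
  have h6 := h4 ((1 : Matrix (Fin d) (Fin d) ℂ)ᵀ ⊗ₖ B)
  rw [h5, transpose_one, marg2 h, Matrix.mul_one, trace_proj hψ, one_smul] at h6
  rw [h4, h5, Matrix.mul_smul, trace_smul, ← h6, smul_eq_mul]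

theorem W_pure (H : Fin N → Matrix (Fin d) (Fin d) ℂ) {ψ φ : Fin d → ℂ} (hψ : star ψ ⬝ᵥ ψ = 1)
    (hφ : star φ ⬝ᵥ φ = 1) : W H (proj ψ) (proj φ) = 1 / 2 * ∑ n,
      ((proj ψ * (H n * H n)).trace + (proj φ * (H n * H n)).trace -
        2 * ((proj ψ * H n).trace * (proj φ * H n).trace)).re := by
  have h1 : (proj ψ)ᵀ ⊗ₖ proj φ ∈ Coup (proj ψ) (proj φ) := by
    refine ⟨(posSemidef_vecMulVec_self_star ψ).transpose.kronecker
      (posSemidef_vecMulVec_self_star φ), ?_, fun i j => ?_, fun i j => ?_⟩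
    · rw [trace_kronecker, trace_transpose, trace_proj hψ, trace_proj hφ, one_mul]
    · have := trace_proj hφ
      simp only [trace, diag] at this
      simp only [kroneckerMap_apply, ← Finset.mul_sum, this, mul_one]
    · have := trace_proj hψ
      simp only [trace, diag] at this
      simp only [kroneckerMap_apply, transpose_apply, ← Finset.sum_mul, this, one_mul]
  rw [W, ← csInf_singleton (1 / 2 * _ : ℝ)]
  congr 1
  refine Set.eq_singleton_iff_nonempty_unique_mem.2 ⟨⟨_, _, h1, rfl⟩, ?_⟩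
  rintro _ ⟨ω, h, rfl⟩
  simp only [cost_eq H h, pure_coup hψ h]

def HH : Fin 2 → Matrix (Fin 4) (Fin 4) ℂ :=
  ![!![0, 2, 0, 0; 2, 0, 0, 0; 0, 0, 0, 1; 0, 0, 1, 0],
    !![1, 0, 0, 0; 0, -1, 0, 0; 0, 0, 2, 0; 0, 0, 0, -2]]

def rr : Matrix (Fin 4) (Fin 4) ℂ := diagonal ![1 / 2, 1 / 2, 0, 0]

def ss : Matrix (Fin 4) (Fin 4) ℂ := diagonal ![0, 0, 1 / 2, 1 / 2]

theorem herm (n : Fin 2) : (HH n).IsHermitian := by
  ext i j
  fin_cases n <;> fin_cases i <;> fin_cases j <;> simp [HH]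

theorem W_le : W HH rr ss ≤ 1 := by
  let v : Fin 4 × Fin 4 → ℂ := fun p => if p = (0, 2) ∨ p = (1, 3) then 1 else 0
  have h : (1 / 2 : ℂ) • vecMulVec v (star v) ∈ Coup rr ss := by
    refine ⟨(posSemidef_vecMulVec_self_star v).smul (by
      rw [Complex.nonneg_iff]; norm_num), ?_, fun i j => ?_, fun i j => ?_⟩
    · simp [v, trace, vecMulVec_apply, Fintype.sum_prod_type, Fin.sum_univ_four]
      norm_num
    · fin_cases i <;> fin_cases j <;> simp [v, rr, vecMulVec_apply, Fin.sum_univ_four]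
    · fin_cases i <;> fin_cases j <;> simp [v, ss, vecMulVec_apply, Fin.sum_univ_four]
  refine csInf_le_of_le ⟨0, by rintro _ ⟨ω, h, rfl⟩; exact cost_nonneg herm h.1⟩ ⟨_, h, rfl⟩ ?_
  rw [cost_eq HH h]
  simp [v, HH, rr, ss, trace, mul_apply, vecMulVec_apply, Fintype.sum_prod_type,
    Fin.sum_univ_four, diagonal]
  norm_num

theorem bdd (ρ σ : Matrix (Fin 4) (Fin 4) ℂ) : BddBelow {t | ∃ (m : ℕ) (p : Fin m → ℝ)
    (Ψ Φ : Fin m → Fin 4 → ℂ), (∀ k, 0 < p k) ∧ ∑ k, p k = 1 ∧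
    (∀ k, star (Ψ k) ⬝ᵥ Ψ k = 1) ∧ (∀ k, star (Φ k) ⬝ᵥ Φ k = 1) ∧
    ∑ k, p k • proj (Ψ k) = ρ ∧ ∑ k, p k • proj (Φ k) = σ ∧
    t = ∑ k, p k * W HH (proj (Ψ k)) (proj (Φ k))} :=
  ⟨0, by
    rintro _ ⟨m, p, Ψ, Φ, h, -, -, -, -, -, rfl⟩
    exact Finset.sum_nonneg fun k _ => mul_nonneg (h k).le (W_nonneg herm _ _)⟩

theorem Wsep_rr : Wsep HH rr rr ≤ 1 := by
  set c : ℝ := Real.sqrt (1 / 2)
  have hc : c * c = 1 / 2 := Real.mul_self_sqrt (by norm_num)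
  have hc' : (c : ℂ) * c = 1 / 2 := by rw [← Complex.ofReal_mul, hc]; norm_num
  let Ψ : Fin 2 → Fin 4 → ℂ := ![![c, c, 0, 0], ![c, -c, 0, 0]]
  have h1 : ∀ k, star (Ψ k) ⬝ᵥ Ψ k = 1 := fun k => by
    fin_cases k <;> simp [Ψ, dotProduct, Fin.sum_univ_four, hc'] <;> norm_num
  have h2 : ∑ k : Fin 2, (1 / 2 : ℝ) • proj (Ψ k) = rr := by
    ext i j
    fin_cases i <;> fin_cases j <;> simp [Ψ, proj, rr, vecMulVec_apply, hc'] <;> norm_num
  refine csInf_le_of_le (bdd _ _) ⟨2, fun _ => 1 / 2, Ψ, Ψ, fun _ => by norm_num, by simp,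
    h1, h1, h2, h2, rfl⟩ ?_
  simp only [W_pure HH (h1 _) (h1 _)]
  simp [Ψ, HH, proj, trace, mul_apply, vecMulVec_apply, Fin.sum_univ_four, hc]
  norm_num

theorem Wsep_ss : Wsep HH ss ss ≤ 1 := by
  let Ψ : Fin 2 → Fin 4 → ℂ := ![![0, 0, 1, 0], ![0, 0, 0, 1]]
  have h1 : ∀ k, star (Ψ k) ⬝ᵥ Ψ k = 1 := fun k => by
    fin_cases k <;> simp [Ψ, dotProduct, Fin.sum_univ_four]
  have h2 : ∑ k : Fin 2, (1 / 2 : ℝ) • proj (Ψ k) = ss := by
    ext i j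
    fin_cases i <;> fin_cases j <;> simp [Ψ, proj, ss, vecMulVec_apply]
  refine csInf_le_of_le (bdd _ _) ⟨2, fun _ => 1 / 2, Ψ, Ψ, fun _ => by norm_num, by simp,
    h1, h1, h2, h2, rfl⟩ ?_
  simp only [W_pure HH (h1 _) (h1 _)]
  simp [Ψ, HH, proj, trace, mul_apply, vecMulVec_apply, Fin.sum_univ_four]
  norm_num

theorem supp {m : ℕ} {p : Fin m → ℝ} {Ψ : Fin m → Fin 4 → ℂ} (hp : ∀ k, 0 < p k) {i : Fin 4}
    (h : (∑ k, p k • proj (Ψ k)) i i = 0) (k : Fin m) : Ψ k i = 0 := by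
  have h1 : ∑ k, p k * Complex.normSq (Ψ k i) = 0 := by
    rw [← Complex.ofReal_eq_zero, ← h]
    simp [Matrix.sum_apply, proj, vecMulVec_apply, Complex.mul_conj]
  have h2 := (Finset.sum_eq_zero_iff_of_nonneg fun k _ =>
    mul_nonneg (hp k).le (Complex.normSq_nonneg _)).1 h1 k (Finset.mem_univ _)
  simpa [(hp k).ne'] using h2

theorem three_le {ψ φ : Fin 4 → ℂ} (hψ : star ψ ⬝ᵥ ψ = 1) (hφ : star φ ⬝ᵥ φ = 1)
    (a2 : ψ 2 = 0) (a3 : ψ 3 = 0) (b0 : φ 0 = 0) (b1 : φ 1 = 0) :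
    3 ≤ W HH (proj ψ) (proj φ) := by
  rw [W_pure HH hψ hφ]
  have h1 := congrArg Complex.re hψ
  have h2 := congrArg Complex.re hφ
  simp [dotProduct, Fin.sum_univ_four, a2, a3, b0, b1] at h1 h2
  simp [HH, proj, trace, mul_apply, vecMulVec_apply, Fin.sum_univ_four, a2, a3, b0, b1]
  generalize (ψ 0).re = a, (ψ 0).im = b, (ψ 1).re = c, (ψ 1).im = e, (φ 2).re = x,
    (φ 2).im = y, (φ 3).re = z, (φ 3).im = w at *
  have h3 : (2 * (a * c + b * e)) ^ 2 + (a * a + b * b - (c * c + e * e)) ^ 2 ≤ 1 := by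
    have : (a * a + b * b + (c * c + e * e)) ^ 2 = 1 := by rw [h1]; norm_num
    nlinarith [sq_nonneg (a * e - b * c)]
  have h4 : (2 * (x * z + y * w)) ^ 2 + (x * x + y * y - (z * z + w * w)) ^ 2 ≤ 1 := by
    have : (x * x + y * y + (z * z + w * w)) ^ 2 = 1 := by rw [h2]; norm_num
    nlinarith [sq_nonneg (x * w - y * z)]
  nlinarith [sq_nonneg (2 * (a * c + b * e) - 2 * (x * z + y * w)),
    sq_nonneg (a * a + b * b - (c * c + e * e) - (x * x + y * y - (z * z + w * w)))]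

theorem Wsep_rs : 3 ≤ Wsep HH rr ss := by
  refine le_csInf ⟨_, 2, fun _ => 1 / 2, ![![1, 0, 0, 0], ![0, 1, 0, 0]],
    ![![0, 0, 1, 0], ![0, 0, 0, 1]], fun _ => by norm_num, by simp, fun k => ?_, fun k => ?_,
    ?_, ?_, rfl⟩ ?_
  · fin_cases k <;> simp [dotProduct, Fin.sum_univ_four]
  · fin_cases k <;> simp [dotProduct, Fin.sum_univ_four]
  · ext i j
    fin_cases i <;> fin_cases j <;> simp [proj, rr, vecMulVec_apply]
  · ext i j
    fin_cases i <;> fin_cases j <;> simp [proj, ss, vecMulVec_apply]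
  rintro _ ⟨m, p, Ψ, Φ, hp, h1, h2, h3, h4, h5, rfl⟩
  calc (3 : ℝ) = ∑ k, p k * 3 := by rw [← Finset.sum_mul, h1, one_mul]
    _ ≤ _ := Finset.sum_le_sum fun k _ => mul_le_mul_of_nonneg_left
      (three_le (h2 k) (h3 k) (supp hp (by simp [h4, rr]) k) (supp hp (by simp [h4, rr]) k)
        (supp hp (by simp [h5, ss]) k) (supp hp (by simp [h5, ss]) k)) (hp k).le

theorem result : ∃ (d N : ℕ) (H : Fin N → Matrix (Fin d) (Fin d) ℂ)
    (ρ σ : Matrix (Fin d) (Fin d) ℂ), 1 ≤ d ∧ 1 ≤ N ∧ (∀ n, (H n).IsHermitian) ∧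
    ρ.PosSemidef ∧ ρ.trace = 1 ∧ σ.PosSemidef ∧ σ.trace = 1 ∧
    W H ρ σ - 1 / 2 * (W H ρ ρ + W H σ σ) <
      Wsep H ρ σ - 1 / 2 * (Wsep H ρ ρ + Wsep H σ σ) := by
  refine ⟨4, 2, HH, rr, ss, by norm_num, by norm_num, herm, ?_, ?_, ?_, ?_, ?_⟩
  · refine PosSemidef.diagonal fun i => ?_
    fin_cases i <;> simp
  · simp [rr, Fin.sum_univ_four]
    norm_num
  · refine PosSemidef.diagonal fun i => ?_
    fin_cases i <;> simp
  · simp [ss, Fin.sum_univ_four]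
    norm_num
  · linarith [W_le, Wsep_rr, Wsep_ss, Wsep_rs, W_nonneg herm rr rr, W_nonneg herm ss ss]

end Pool.Agent.Results.MP_9a8b60_mp.Counter
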